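import Mathlib

/-!
The pair `(6,3)`: there are at least two connected `(6,3)`-regular graphs, and all of them are
finite.
-/

namespace Pool.Agent.Results.MP_74392e_co.SixThree

open SimpleGraph

universe u

/-- `G` is `(k,t)`-regular: every vertex has degree `k`, every edge lies in exactly `t`
triangles. -/
def IsKT {V : Type*} (G : SimpleGraph V) (k t : ℕ) : Prop :=
  (∀ v, (G.neighborSet v).encard = k) ∧
    ∀ v w, G.Adj v w → (G.neighborSet v ∩ G.neighborSet w).encard = t

section general

variable {V : Type*} {G : SimpleGraph V}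

theorem nbhd_finite (h : IsKT G 6 3) (v : V) : (G.neighborSet v).Finite := by
  rw [← Set.encard_lt_top_iff, h.1 v]
  exact ENat.natCast_lt_top 6

/-- Two vertices `v, c` with a common neighbour `w` that are distinct and not adjacent have at
least three common neighbours. -/
theorem three_common (h : IsKT G 6 3) {v w c : V} (hvw : G.Adj v w) (hwc : G.Adj w c)
    (hne : v ≠ c) (hnadj : ¬ G.Adj v c) :
    3 ≤ (G.neighborSet v ∩ G.neighborSet c).ncard := by
  classical
  have fw := nbhd_finite h w
  have fv := nbhd_finite h v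
  -- the neighbourhoods inside `N(w)`
  set A := G.neighborSet v ∩ G.neighborSet w with hA
  set B := G.neighborSet c ∩ G.neighborSet w with hB
  have hAc : A.ncard = 3 := by
    have := h.2 v w hvw
    rw [Set.ncard_def, this]; rfl
  have hBc : B.ncard = 3 := by
    have := h.2 c w hwc.symm
    rw [Set.ncard_def, this]; rfl
  have hWc : (G.neighborSet w).ncard = 6 := by
    have := h.1 w
    rw [Set.ncard_def, this]; rfl
  have hAf : A.Finite := fw.subset Set.inter_subset_right
  have hBf : B.Finite := fw.subset Set.inter_subset_right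
  have hsub : A ∪ B ⊆ (G.neighborSet w) \ {v, c} := by
    intro x hx
    simp only [Set.mem_sdiff, Set.mem_insert_iff, Set.mem_singleton_iff, not_or]
    rcases hx with ⟨h1, h2⟩ | ⟨h1, h2⟩
    · refine ⟨h2, ?_, ?_⟩
      · rintro rfl; exact G.loopless.irrefl _ h1
      · rintro rfl; exact hnadj h1
    · refine ⟨h2, ?_, ?_⟩
      · rintro rfl; exact hnadj h1.symm
      · rintro rfl; exact G.loopless.irrefl _ h1
  have hcard : ((G.neighborSet w) \ {v, c}).ncard = 4 := by
    rw [Set.ncard_sdiff _ (by simp), hWc, Set.ncard_pair hne]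
    rintro x (rfl | rfl)
    · exact hvw.symm
    · exact hwc
  have hU : (A ∪ B).ncard ≤ 4 := by
    rw [← hcard]
    exact Set.ncard_le_ncard hsub (fw.subset Set.sdiff_subset)
  have hUI := Set.ncard_union_add_ncard_inter A B hAf hBf
  have hwnot : w ∉ A ∩ B := by
    rintro ⟨⟨_, h2⟩, _⟩
    exact G.loopless.irrefl _ h2
  have hins : insert w (A ∩ B) ⊆ G.neighborSet v ∩ G.neighborSet c := by
    rintro x (rfl | ⟨h1, h2⟩)
    · exact ⟨hvw, hwc.symm⟩
    · exact ⟨h1.1, h2.1⟩
  have h1 := Set.ncard_le_ncard hins (fv.subset Set.inter_subset_left)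
  rw [Set.ncard_insert_of_notMem hwnot (hAf.subset Set.inter_subset_left)] at h1
  omega

/-- There are no vertices at distance three. -/
theorem no_three (h : IsKT G 6 3) {v w c z : V} (hvw : G.Adj v w) (hwc : G.Adj w c)
    (hcz : G.Adj c z) : z = v ∨ G.Adj v z ∨ ∃ y, G.Adj v y ∧ G.Adj y z := by
  classical
  by_contra hcon
  push Not at hcon
  obtain ⟨h1, h2, h3⟩ := hcon
  have hne : v ≠ c := by
    rintro rfl
    exact h2 hcz
  have hnadj : ¬ G.Adj v c := fun h' => h3 c h' hcz
  have h4 := three_common h hvw hwc hne hnadj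
  have fc := nbhd_finite h c
  set A := G.neighborSet v ∩ G.neighborSet c with hA
  set B := G.neighborSet c ∩ G.neighborSet z with hB
  have hBc : B.ncard = 3 := by
    have := h.2 c z hcz
    rw [Set.ncard_def, this]; rfl
  have hCc : (G.neighborSet c).ncard = 6 := by
    have := h.1 c
    rw [Set.ncard_def, this]; rfl
  have hAf : A.Finite := fc.subset Set.inter_subset_right
  have hBf : B.Finite := fc.subset Set.inter_subset_left
  have hdisj : Disjoint A B := by
    rw [Set.disjoint_left]
    rintro x ⟨hx1, _⟩ ⟨_, hx2⟩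
    exact h3 x hx1 hx2.symm
  have hz : z ∉ A ∪ B := by
    rintro (⟨hx1, _⟩ | ⟨_, hx2⟩)
    · exact h2 hx1
    · exact G.loopless.irrefl _ hx2
  have hsub : insert z (A ∪ B) ⊆ G.neighborSet c := by
    rintro x (rfl | ⟨_, hx⟩ | ⟨hx, _⟩)
    · exact hcz
    · exact hx
    · exact hx
  have h5 := Set.ncard_le_ncard hsub fc
  rw [Set.ncard_insert_of_notMem hz (hAf.union hBf), Set.ncard_union_eq hdisj hAf hBf, hBc,
    hCc] at h5
  omega

/-- Every connected `(6,3)`-regular graph is finite. -/
theorem finite_of_connected (hc : G.Connected) (h : IsKT G 6 3) : Finite V := by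
  classical
  obtain ⟨v⟩ := hc.nonempty
  -- everything is in the ball of radius two
  have hball : ∀ z : V, z = v ∨ G.Adj v z ∨ ∃ y, G.Adj v y ∧ G.Adj y z := by
    intro z
    obtain ⟨p⟩ := hc.preconnected z v
    induction p with
    | nil => exact Or.inl rfl
    | cons hadj p ih =>
      rename_i z c v
      rcases ih with rfl | ih | ⟨y, hy1, hy2⟩
      · exact Or.inr (Or.inl hadj.symm)
      · exact Or.inr (Or.inr ⟨_, ih, hadj.symm⟩)
      · exact no_three h hy1 hy2 hadj.symm
  have hfin : (insert v (G.neighborSet v ∪ ⋃ y ∈ G.neighborSet v, G.neighborSet y)).Finite := by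
    apply Set.Finite.insert
    apply (nbhd_finite h v).union
    exact (nbhd_finite h v).biUnion (fun y _ => nbhd_finite h y)
  have huniv : (Set.univ : Set V).Finite := by
    refine hfin.subset ?_
    intro z _
    rcases hball z with h1 | h1 | ⟨y, hy1, hy2⟩
    · exact Or.inl h1
    · exact Or.inr (Or.inl h1)
    · right; right
      simp only [Set.mem_iUnion]
      exact ⟨y, hy1, hy2⟩
  exact Set.finite_univ_iff.mp huniv

end general

/-- The complete tripartite graph `K_{3,3,3}`. -/
def G9 : SimpleGraph (Fin 9) where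
  Adj i j := i.1 % 3 ≠ j.1 % 3
  symm := ⟨fun _ _ h => h.symm⟩
  loopless := ⟨fun _ h => h rfl⟩

/-- The ten pairs. -/
def prs : Fin 10 → Fin 5 × Fin 5 :=
  ![(0, 1), (0, 2), (0, 3), (0, 4), (1, 2), (1, 3), (1, 4), (2, 3), (2, 4), (3, 4)]

/-- The complement of the Petersen graph: pairs sharing a point. -/
def G10 : SimpleGraph (Fin 10) where
  Adj i j := i ≠ j ∧ ((prs i).1 = (prs j).1 ∨ (prs i).1 = (prs j).2 ∨ (prs i).2 = (prs j).1 ∨
    (prs i).2 = (prs j).2)
  symm := ⟨by
    rintro i j ⟨h1, h2⟩
    refine ⟨h1.symm, ?_⟩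
    rcases h2 with h | h | h | h
    · exact Or.inl h.symm
    · exact Or.inr (Or.inr (Or.inl h.symm))
    · exact Or.inr (Or.inl h.symm)
    · exact Or.inr (Or.inr (Or.inr h.symm))⟩
  loopless := ⟨fun _ h => h.1 rfl⟩

instance : DecidableRel G9.Adj := fun i j => inferInstanceAs (Decidable (i.1 % 3 ≠ j.1 % 3))

instance : DecidableRel G10.Adj := fun i j =>
  inferInstanceAs (Decidable (i ≠ j ∧ ((prs i).1 = (prs j).1 ∨ (prs i).1 = (prs j).2 ∨
    (prs i).2 = (prs j).1 ∨ (prs i).2 = (prs j).2)))

theorem isKT_of_decide {n : ℕ} (G : SimpleGraph (Fin n)) [DecidableRel G.Adj]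
    (h1 : ∀ v, (Finset.univ.filter (fun w => G.Adj v w)).card = 6)
    (h2 : ∀ v w, G.Adj v w → (Finset.univ.filter (fun z => G.Adj v z ∧ G.Adj w z)).card = 3) :
    IsKT G 6 3 := by
  constructor
  · intro v
    have : G.neighborSet v = ((Finset.univ.filter (fun w => G.Adj v w) : Finset (Fin n)) :
        Set (Fin n)) := by
      ext w; simp
    rw [this, Set.encard_coe_eq_coe_finsetCard, h1 v]
  · intro v w hvw
    have : G.neighborSet v ∩ G.neighborSet w =
        ((Finset.univ.filter (fun z => G.Adj v z ∧ G.Adj w z) : Finset (Fin n)) :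
        Set (Fin n)) := by
      ext z; simp
    rw [this, Set.encard_coe_eq_coe_finsetCard, h2 v w hvw]

theorem connected_of_decide {n : ℕ} (G : SimpleGraph (Fin (n + 1)))
    (h : ∀ v w, v = w ∨ G.Adj v w ∨ ∃ z, G.Adj v z ∧ G.Adj z w) : G.Connected := by
  have : Nonempty (Fin (n + 1)) := ⟨0⟩
  refine ⟨fun v w => ?_⟩
  rcases h v w with rfl | h | ⟨z, h1, h2⟩
  · exact Reachable.refl _
  · exact h.reachable
  · exact h1.reachable.trans h2.reachable

/-- There is a pair `(k,t)` for which there are two non-isomorphic connected `(k,t)`-regular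
graphs, and all connected `(k,t)`-regular graphs are finite. -/
theorem result : ∃ k t : ℕ, (∃ (V W : Type) (G : SimpleGraph V) (H : SimpleGraph W),
      G.Connected ∧ H.Connected ∧ IsKT G k t ∧ IsKT H k t ∧ IsEmpty (G ≃g H)) ∧
    ∀ (V : Type u) (G : SimpleGraph V), G.Connected → IsKT G k t → Finite V := by
  refine ⟨6, 3, ⟨Fin 9, Fin 10, G9, G10, ?_, ?_, ?_, ?_, ?_⟩, fun V G hc h =>
    finite_of_connected hc h⟩
  · exact connected_of_decide G9 (by decide)
  · exact connected_of_decide G10 (by decide)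
  · exact isKT_of_decide G9 (by decide) (by decide)
  · exact isKT_of_decide G10 (by decide) (by decide)
  · refine ⟨fun e => ?_⟩
    have := Fintype.card_congr e.toEquiv
    simp at this

end Pool.Agent.Results.MP_74392e_co.SixThree
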